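import Pool.Agent.H606.OS.Stm

open MeasureTheory Filter Topology Finset
open Pool.Agent.H606.OS

namespace Pool.Agent.H339.OS.UP

lemma Fg_nonneg (u : ℝ) : 0 ≤ Fg u := by
  unfold Fg
  have h : |Real.sin (Real.pi * u) / (Real.pi * u)| ≤ 1 := by
    rw [abs_div]
    exact div_le_one_of_le₀ Real.abs_sin_le_abs (abs_nonneg _)
  have := (sq_le_one_iff_abs_le_one _).2 h
  linarith

lemma Fg_le (u : ℝ) : Fg u ≤ 1 := by
  unfold Fg
  have := sq_nonneg (Real.sin (Real.pi * u) / (Real.pi * u))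
  linarith

lemma Fg_meas : Measurable Fg := by
  unfold Fg
  fun_prop

lemma Fg_ii (p q : ℝ) : IntervalIntegrable Fg volume p q := by
  have h1 : IntervalIntegrable (fun _ : ℝ => (1 : ℝ)) volume p q := intervalIntegrable_const
  refine h1.mono_fun Fg_meas.aestronglyMeasurable ?_
  refine Eventually.of_forall fun u => ?_
  simp only [Real.norm_eq_abs]
  rw [abs_of_nonneg (Fg_nonneg u), abs_one]
  exact Fg_le u

lemma gFg_ii {g : ℝ → ℝ} (hg : Continuous g) (p q : ℝ) :
    IntervalIntegrable (fun u => g u * Fg u) volume p q := by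
  have h1 : IntervalIntegrable g volume p q := hg.intervalIntegrable _ _
  refine h1.mono_fun (hg.measurable.mul Fg_meas).aestronglyMeasurable ?_
  refine Eventually.of_forall fun u => ?_
  simp only [Real.norm_eq_abs, abs_mul]
  rw [abs_of_nonneg (Fg_nonneg u)]
  exact mul_le_of_le_one_right (abs_nonneg _) (Fg_le u)

/-- the sum over the pairs with difference in `[p, q]` -/
noncomputable def sw {N : ℕ} (x : Fin N → ℝ) (R p q : ℝ) (g : ℝ → ℝ) : ℝ :=
  (∑ r ∈ (Finset.univ : Finset (Fin N × Fin N)).filter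
    (fun r => p ≤ x r.1 - x r.2 ∧ x r.1 - x r.2 ≤ q), g (x r.1 - x r.2)) / R

lemma pc_eq {N : ℕ} (x : Fin N → ℝ) (R p q : ℝ) :
    pc x R p q = (((Finset.univ : Finset (Fin N × Fin N)).filter
      (fun r => p ≤ x r.1 - x r.2 ∧ x r.1 - x r.2 ≤ q)).card : ℝ) / R := by
  unfold pc
  congr 2
  rw [← Set.ncard_coe_finset]
  congr 1
  ext r
  simp

lemma sw_const {N : ℕ} (x : Fin N → ℝ) (R p q c : ℝ) :
    sw x R p q (fun _ => c) = c * pc x R p q := by
  rw [pc_eq, sw, Finset.sum_const, nsmul_eq_mul]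
  ring

lemma sw_add {N : ℕ} (x : Fin N → ℝ) (R p q : ℝ) (g h : ℝ → ℝ) :
    sw x R p q (fun u => g u + h u) = sw x R p q g + sw x R p q h := by
  rw [sw, sw, sw, Finset.sum_add_distrib, add_div]

lemma sw_mono {N : ℕ} (x : Fin N → ℝ) {R : ℝ} (hR : 0 < R) {p q : ℝ} {g h : ℝ → ℝ}
    (H : ∀ u, p ≤ u → u ≤ q → g u ≤ h u) : sw x R p q g ≤ sw x R p q h := by
  unfold sw
  apply div_le_div_of_nonneg_right _ hR.le
  apply Finset.sum_le_sum
  intro r hr
  rw [Finset.mem_filter] at hr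
  exact H _ hr.2.1 hr.2.2

lemma sw_split {N : ℕ} (x : Fin N → ℝ) {R : ℝ} (hR : 0 < R) {p m q : ℝ} {g : ℝ → ℝ}
    (hpm : p ≤ m) (hmq : m ≤ q) (H : ∀ u, p ≤ u → u ≤ q → 0 ≤ g u) :
    sw x R p q g ≤ sw x R p m g + sw x R m q g := by
  classical
  unfold sw
  rw [← add_div]
  apply div_le_div_of_nonneg_right _ hR.le
  have hsub : (Finset.univ : Finset (Fin N × Fin N)).filter
      (fun r => p ≤ x r.1 - x r.2 ∧ x r.1 - x r.2 ≤ q) ⊆
      (Finset.univ : Finset (Fin N × Fin N)).filter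
        (fun r => p ≤ x r.1 - x r.2 ∧ x r.1 - x r.2 ≤ m) ∪
      (Finset.univ : Finset (Fin N × Fin N)).filter
        (fun r => m ≤ x r.1 - x r.2 ∧ x r.1 - x r.2 ≤ q) := by
    intro r hr
    rw [Finset.mem_filter] at hr
    rw [Finset.mem_union, Finset.mem_filter, Finset.mem_filter]
    rcases le_total (x r.1 - x r.2) m with h | h
    · exact Or.inl ⟨Finset.mem_univ _, hr.2.1, h⟩
    · exact Or.inr ⟨Finset.mem_univ _, h, hr.2.2⟩
  have hnn : ∀ r ∈ (Finset.univ : Finset (Fin N × Fin N)).filter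
        (fun r => p ≤ x r.1 - x r.2 ∧ x r.1 - x r.2 ≤ m) ∪
      (Finset.univ : Finset (Fin N × Fin N)).filter
        (fun r => m ≤ x r.1 - x r.2 ∧ x r.1 - x r.2 ≤ q), 0 ≤ g (x r.1 - x r.2) := by
    intro r hr
    rw [Finset.mem_union, Finset.mem_filter, Finset.mem_filter] at hr
    rcases hr with h | h
    · exact H _ h.2.1 (h.2.2.trans hmq)
    · exact H _ (hpm.trans h.2.1) h.2.2
  refine (Finset.sum_le_sum_of_subset_of_nonneg hsub fun r hr _ => hnn r hr).trans ?_
  rw [← Finset.sum_union_inter]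
  have : 0 ≤ ∑ r ∈ (Finset.univ : Finset (Fin N × Fin N)).filter
        (fun r => p ≤ x r.1 - x r.2 ∧ x r.1 - x r.2 ≤ m) ∩
      (Finset.univ : Finset (Fin N × Fin N)).filter
        (fun r => m ≤ x r.1 - x r.2 ∧ x r.1 - x r.2 ≤ q), g (x r.1 - x r.2) :=
    Finset.sum_nonneg fun r hr => hnn r (Finset.mem_union_left _ (Finset.mem_inter.1 hr).1)
  linarith

variable {C1 : ℝ}

/-- the property for an interval -/
def QQ (D : Cg C1) (l : Filter ℝ) (g : ℝ → ℝ) (e p q : ℝ) : Prop :=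
  ∀ η : ℝ, 0 < η → ∀ᶠ T in l, sw (D.x T) (D.R T) p q g ≤ (∫ u in p..q, g u * Fg u) + e * (q - p) + η

lemma QQ_short {D : Cg C1} {l : Filter ℝ} (hl : l ≤ atTop) {A : ℝ} (hU : UpA D l A)
    {g : ℝ → ℝ} (hg : Continuous g) {e p q : ℝ} (he : 0 < e) (hp : A ≤ p) (hpq : p < q)
    (h0 : 0 ≤ g p) (hosc : ∀ u, p ≤ u → u ≤ q → |g u - g p| ≤ e) :
    QQ D l g (2 * e) p q := by
  intro η hη
  have hge : 0 < g p + e := by linarith
  have hη' : 0 < η / (g p + e) := div_pos hη hge
  filter_upwards [hU p q hp hpq _ hη', hl D.hR] with T hT hR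
  have h1 : sw (D.x T) (D.R T) p q g ≤ (g p + e) * pc (D.x T) (D.R T) p q := by
    rw [← sw_const]
    apply sw_mono _ hR
    intro u hu1 hu2
    have := (abs_le.1 (hosc u hu1 hu2)).2
    linarith
  have h2 : (g p + e) * pc (D.x T) (D.R T) p q ≤ (g p + e) * (∫ u in p..q, Fg u) + η := by
    have := mul_le_mul_of_nonneg_left hT hge.le
    rwa [mul_add, mul_div_cancel₀ _ hge.ne'] at this
  have h3 : (g p + e) * (∫ u in p..q, Fg u) ≤ (∫ u in p..q, g u * Fg u) + 2 * e * (q - p) := by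
    have h4 : (∫ u in p..q, (g p + e) * Fg u) ≤ ∫ u in p..q, (g u * Fg u + 2 * e) := by
      apply intervalIntegral.integral_mono_on hpq.le ((Fg_ii p q).const_mul _)
        ((gFg_ii hg p q).add intervalIntegrable_const)
      intro u hu
      have h5 := (abs_le.1 (hosc u hu.1 hu.2)).1
      have h6 := Fg_nonneg u
      have h7 := Fg_le u
      nlinarith
    rw [intervalIntegral.integral_const_mul, intervalIntegral.integral_add (gFg_ii hg p q)
      intervalIntegrable_const, intervalIntegral.integral_const, smul_eq_mul] at h4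
    linarith
  linarith

lemma QQ_add {D : Cg C1} {l : Filter ℝ} (hl : l ≤ atTop)
    {g : ℝ → ℝ} (hg : Continuous g) {e p m q : ℝ} (hpm : p ≤ m) (hmq : m ≤ q)
    (H : ∀ u, p ≤ u → u ≤ q → 0 ≤ g u) (h1 : QQ D l g e p m) (h2 : QQ D l g e m q) :
    QQ D l g e p q := by
  intro η hη
  filter_upwards [h1 (η / 2) (by linarith), h2 (η / 2) (by linarith), hl D.hR] with T h1 h2 hR
  have h3 := sw_split (D.x T) hR hpm hmq H
  rw [← intervalIntegral.integral_add_adjacent_intervals (gFg_ii hg p m) (gFg_ii hg m q)]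
  linarith

lemma QQ_all {D : Cg C1} {l : Filter ℝ} (hl : l ≤ atTop) {A : ℝ} (hU : UpA D l A)
    {g : ℝ → ℝ} (hg : Continuous g) {e p q : ℝ} (he : 0 < e) (hp : A ≤ p) (hpq : p < q)
    (H : ∀ u, p ≤ u → u ≤ q → 0 ≤ g u) : QQ D l g (2 * e) p q := by
  have huc : UniformContinuousOn g (Set.Icc p q) :=
    isCompact_Icc.uniformContinuousOn_of_continuous hg.continuousOn
  obtain ⟨δ, hδ, hd⟩ := Metric.uniformContinuousOn_iff.1 huc e he
  obtain ⟨n, hn⟩ := exists_nat_gt ((q - p) / δ)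
  have hn0 : 0 < (n : ℝ) := (div_pos (by linarith) hδ).trans hn
  have hnn : 0 < n := by exact_mod_cast hn0
  obtain ⟨h, hh⟩ : ∃ h, h = (q - p) / n := ⟨_, rfl⟩
  have hh0 : 0 < h := by rw [hh]; exact div_pos (by linarith) hn0
  have hhδ : h < δ := by
    rw [hh, div_lt_iff₀ hn0]
    rw [div_lt_iff₀ hδ] at hn
    linarith
  have hnh : n * h = q - p := by rw [hh]; field_simp
  have key : ∀ j : ℕ, j + 1 ≤ n → QQ D l g (2 * e) p (p + (j + 1 : ℕ) * h) := by
    intro j
    induction j with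
    | zero =>
      intro hj
      have hle : h ≤ q - p := by
        rw [← hnh]
        exact le_mul_of_one_le_left hh0.le (by exact_mod_cast hj)
      rw [Nat.zero_add, Nat.cast_one, one_mul]
      apply QQ_short hl hU hg he hp (by linarith) (H p le_rfl hpq.le)
      intro u hu1 hu2
      have := hd u ⟨hu1, by linarith⟩ p ⟨le_rfl, hpq.le⟩ (by
        rw [Real.dist_eq, abs_of_nonneg (by linarith)]; linarith)
      rw [Real.dist_eq] at this
      exact this.le
    | succ j ih =>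
      intro hj
      have hj1 : ((j + 1 + 1 : ℕ) : ℝ) * h ≤ q - p := by
        rw [← hnh]
        exact mul_le_mul_of_nonneg_right (by exact_mod_cast hj) hh0.le
      have hj2 : ((j + 1 + 1 : ℕ) : ℝ) * h = ((j + 1 : ℕ) : ℝ) * h + h := by
        push_cast; ring
      have hj3 : 0 ≤ ((j + 1 : ℕ) : ℝ) * h := by positivity
      apply QQ_add hl hg (m := p + (j + 1 : ℕ) * h) (by linarith) (by linarith)
        (fun u hu1 hu2 => H u hu1 (by linarith)) (ih (by omega))
      apply QQ_short hl hU hg he (by linarith) (by linarith) (H _ (by linarith) (by linarith))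
      intro u hu1 hu2
      have := hd u ⟨by linarith, by linarith⟩ (p + (j + 1 : ℕ) * h)
        ⟨by linarith, by linarith⟩ (by
        rw [Real.dist_eq, abs_of_nonneg (by linarith)]; linarith)
      rw [Real.dist_eq] at this
      exact this.le
  have hfin := key (n - 1) (by omega)
  rw [Nat.sub_add_cancel hnn, hnh] at hfin
  rwa [show p + (q - p) = q by ring] at hfin

/-- the limit over an interval -/
lemma up_int {D : Cg C1} {l : Filter ℝ} (hl : l ≤ atTop) {A : ℝ} (hU : UpA D l A)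
    {g : ℝ → ℝ} (hg : Continuous g) {p q : ℝ} (hp : A ≤ p) (hpq : p ≤ q)
    (hdeg : p = q → ∀ u, g u = 0)
    (H : ∀ u, p ≤ u → u ≤ q → 0 ≤ g u) {η : ℝ} (hη : 0 < η) :
    ∀ᶠ T in l, sw (D.x T) (D.R T) p q g ≤ (∫ u in p..q, g u * Fg u) + η := by
  rcases hpq.eq_or_lt with h | h
  · have h0 := hdeg h
    refine Eventually.of_forall fun T => ?_
    have e1 : sw (D.x T) (D.R T) p q g = 0 := by
      unfold sw
      simp [h0]
    rw [e1, h, intervalIntegral.integral_same]
    linarith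
  · have hd : 0 < q - p := by linarith
    have he : 0 < η / (4 * (q - p)) := by positivity
    filter_upwards [QQ_all hl hU hg he hp h H (η / 2) (by linarith)] with T hT
    have e : 2 * (η / (4 * (q - p))) * (q - p) = η / 2 := by field_simp; norm_num
    rw [e] at hT
    linarith

/-- the tail -/
lemma tail {N : ℕ} (x : Fin N → ℝ) {R : ℝ} (hR : 0 < R) {K : ℝ → ℝ} {B C : ℝ} (hB : 0 ≤ B)
    (hC : 0 ≤ C)
    (hK : ∀ u, 0 ≤ u → 0 ≤ K u ∧ K u ≤ B * ka u)
    (hNB : ∀ y : ℝ, pc x R y (y + 1) ≤ C) (m : ℕ) (hm : m ≠ 0) :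
    ks x R ((m : ℝ) + 1) K ≤ B * C / m := by
  classical
  obtain ⟨S, hS⟩ : ∃ S, S = (Finset.univ : Finset (Fin N × Fin N)).filter
    (fun q => (m : ℝ) + 1 ≤ x q.1 - x q.2) := ⟨_, rfl⟩
  unfold ks
  rw [← hS]
  obtain ⟨M, hM⟩ : ∃ M : ℕ, ∀ q ∈ S, ⌊x q.1 - x q.2⌋₊ ≤ M :=
    ⟨S.sup fun q => ⌊x q.1 - x q.2⌋₊, fun q hq => Finset.le_sup (f := fun q => ⌊x q.1 - x q.2⌋₊) hq⟩
  have hmaps : ∀ q ∈ S, ⌊x q.1 - x q.2⌋₊ ∈ Finset.Ioc m (max m M) := by
    intro q hq
    rw [Finset.mem_Ioc]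
    refine ⟨?_, (hM q hq).trans (le_max_right _ _)⟩
    rw [hS, Finset.mem_filter] at hq
    have : m + 1 ≤ ⌊x q.1 - x q.2⌋₊ := Nat.le_floor (by push_cast; exact hq.2)
    omega
  rw [← Finset.sum_fiberwise_of_maps_to hmaps, Finset.sum_div]
  have hterm : ∀ k ∈ Finset.Ioc m (max m M),
      (∑ q ∈ S.filter (fun q => ⌊x q.1 - x q.2⌋₊ = k), K (x q.1 - x q.2)) / R ≤
        B * C * ((k : ℝ) ^ 2)⁻¹ := by
    intro k hk
    rw [Finset.mem_Ioc] at hk
    have hk0 : 0 < (k : ℝ) := by exact_mod_cast (by omega : 0 < k)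
    have h1 : ∀ q ∈ S.filter (fun q => ⌊x q.1 - x q.2⌋₊ = k),
        K (x q.1 - x q.2) ≤ B * ((k : ℝ) ^ 2)⁻¹ := by
      intro q hq
      rw [Finset.mem_filter, hS, Finset.mem_filter] at hq
      have hpos : 0 ≤ x q.1 - x q.2 := by
        have : (0 : ℝ) ≤ m := Nat.cast_nonneg _
        linarith [hq.1.2]
      have hfl : (k : ℝ) ≤ x q.1 - x q.2 := by
        rw [← hq.2]; exact Nat.floor_le hpos
      refine (hK _ hpos).2.trans (mul_le_mul_of_nonneg_left ?_ hB)
      unfold ka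
      rw [one_div]
      apply inv_anti₀ (by positivity)
      nlinarith
    have h2 : (∑ q ∈ S.filter (fun q => ⌊x q.1 - x q.2⌋₊ = k), K (x q.1 - x q.2)) ≤
        ((S.filter (fun q => ⌊x q.1 - x q.2⌋₊ = k)).card : ℝ) * (B * ((k : ℝ) ^ 2)⁻¹) := by
      rw [← nsmul_eq_mul]
      exact Finset.sum_le_card_nsmul _ _ _ h1
    have h3 : ((S.filter (fun q => ⌊x q.1 - x q.2⌋₊ = k)).card : ℝ) / R ≤ C := by
      refine le_trans ?_ (hNB k)
      rw [pc_eq]
      apply div_le_div_of_nonneg_right _ hR.le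
      norm_cast
      apply Finset.card_le_card
      intro q hq
      rw [Finset.mem_filter, hS, Finset.mem_filter] at hq
      rw [Finset.mem_filter]
      have hpos : 0 ≤ x q.1 - x q.2 := by
        have : (0 : ℝ) ≤ m := Nat.cast_nonneg _
        linarith [hq.1.2]
      refine ⟨Finset.mem_univ _, ?_, ?_⟩
      · rw [← hq.2]; exact Nat.floor_le hpos
      · have := Nat.lt_floor_add_one (x q.1 - x q.2)
        rw [hq.2] at this
        push_cast
        exact this.le
    calc (∑ q ∈ S.filter (fun q => ⌊x q.1 - x q.2⌋₊ = k), K (x q.1 - x q.2)) / R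
        ≤ (((S.filter (fun q => ⌊x q.1 - x q.2⌋₊ = k)).card : ℝ) * (B * ((k : ℝ) ^ 2)⁻¹)) / R :=
          div_le_div_of_nonneg_right h2 hR.le
      _ = (((S.filter (fun q => ⌊x q.1 - x q.2⌋₊ = k)).card : ℝ) / R) * (B * ((k : ℝ) ^ 2)⁻¹) := by
          ring
      _ ≤ C * (B * ((k : ℝ) ^ 2)⁻¹) := mul_le_mul_of_nonneg_right h3 (by positivity)
      _ = _ := by ring
  refine (Finset.sum_le_sum hterm).trans ?_
  rw [← Finset.mul_sum, div_eq_mul_inv (B * C)]
  apply mul_le_mul_of_nonneg_left _ (mul_nonneg hB hC)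
  refine (sum_Ioc_inv_sq_le_sub hm (le_max_left m M)).trans ?_
  have : 0 ≤ ((max m M : ℕ) : ℝ)⁻¹ := by positivity
  linarith

lemma ks_split {N : ℕ} (x : Fin N → ℝ) {R : ℝ} (hR : 0 < R) {A q : ℝ} {K : ℝ → ℝ}
    (hAq : A ≤ q) (H : ∀ u, A ≤ u → 0 ≤ K u) :
    ks x R A K ≤ sw x R A q K + ks x R q K := by
  classical
  unfold ks sw
  rw [← add_div]
  apply div_le_div_of_nonneg_right _ hR.le
  have hsub : (Finset.univ : Finset (Fin N × Fin N)).filter
      (fun r => A ≤ x r.1 - x r.2) ⊆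
      (Finset.univ : Finset (Fin N × Fin N)).filter
        (fun r => A ≤ x r.1 - x r.2 ∧ x r.1 - x r.2 ≤ q) ∪
      (Finset.univ : Finset (Fin N × Fin N)).filter
        (fun r => q ≤ x r.1 - x r.2) := by
    intro r hr
    rw [Finset.mem_filter] at hr
    rw [Finset.mem_union, Finset.mem_filter, Finset.mem_filter]
    rcases le_total (x r.1 - x r.2) q with h | h
    · exact Or.inl ⟨Finset.mem_univ _, hr.2, h⟩
    · exact Or.inr ⟨Finset.mem_univ _, h⟩
  have hnn : ∀ r ∈ (Finset.univ : Finset (Fin N × Fin N)).filter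
        (fun r => A ≤ x r.1 - x r.2 ∧ x r.1 - x r.2 ≤ q) ∪
      (Finset.univ : Finset (Fin N × Fin N)).filter
        (fun r => q ≤ x r.1 - x r.2), 0 ≤ K (x r.1 - x r.2) := by
    intro r hr
    rw [Finset.mem_union, Finset.mem_filter, Finset.mem_filter] at hr
    rcases hr with h | h
    · exact H _ h.2.1
    · exact H _ (hAq.trans h.2)
  refine (Finset.sum_le_sum_of_subset_of_nonneg hsub fun r hr _ => hnn r hr).trans ?_
  rw [← Finset.sum_union_inter]
  have : 0 ≤ ∑ r ∈ (Finset.univ : Finset (Fin N × Fin N)).filter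
        (fun r => A ≤ x r.1 - x r.2 ∧ x r.1 - x r.2 ≤ q) ∩
      (Finset.univ : Finset (Fin N × Fin N)).filter
        (fun r => q ≤ x r.1 - x r.2), K (x r.1 - x r.2) :=
    Finset.sum_nonneg fun r hr => hnn r (Finset.mem_union_left _ (Finset.mem_inter.1 hr).1)
  linarith

lemma int_Ioi {K : ℝ → ℝ} {B : ℝ} (hKc : Continuous K)
    (hK : ∀ u, 0 ≤ u → 0 ≤ K u ∧ K u ≤ B * ka u) {A : ℝ} (hA : 0 < A) :
    IntegrableOn (fun u => K u * Fg u) (Set.Ioi A) := by
  have h1 : Integrable (fun u : ℝ => B * ka u) := by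
    have := (integrable_inv_one_add_sq).const_mul B
    refine this.congr (Eventually.of_forall fun u => ?_)
    simp [ka]
  refine Integrable.mono' h1.integrableOn
    (hKc.measurable.mul Fg_meas).aestronglyMeasurable ?_
  rw [ae_restrict_iff' measurableSet_Ioi]
  refine Eventually.of_forall fun u hu => ?_
  have hu0 : 0 ≤ u := (hA.trans hu).le
  rw [Real.norm_eq_abs, abs_mul, abs_of_nonneg (hK u hu0).1, abs_of_nonneg (Fg_nonneg u)]
  exact (mul_le_of_le_one_right (hK u hu0).1 (Fg_le u)).trans (hK u hu0).2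

theorem t_UP (hNB : S_NB) : S_UP := by
  intro C1 D l hC1 hl A hA hU K B hKc hK α β κ hAα hαβ hκ hκK ε hε
  obtain ⟨C, hC, hNB⟩ := hNB C1 hC1
  have hB : 0 ≤ B := by
    have := hK 0 le_rfl
    have h2 : ka 0 = 1 := by simp [ka]
    rw [h2] at this
    linarith
  obtain ⟨m, hm⟩ := exists_nat_gt (max β (4 * (B * C) / ε))
  have hm1 : β < m := (le_max_left _ _).trans_lt hm
  have hm2 : 4 * (B * C) / ε < m := (le_max_right _ _).trans_lt hm
  have hβ0 : 0 < β := by linarith
  have hm0 : (0 : ℝ) < m := hβ0.trans hm1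
  have hmne : m ≠ 0 := by rintro rfl; simp at hm0
  have htail : B * C / m ≤ ε / 4 := by
    rw [div_lt_iff₀ hε] at hm2
    rw [div_le_iff₀ hm0]
    linarith
  have hKn : ∀ u, A ≤ u → 0 ≤ K u := fun u hu => (hK u (hA.le.trans hu)).1
  -- the three pieces
  have hb : ∀ᶠ T in l, sw (D.x T) (D.R T) β (m + 1) K ≤
      (∫ u in β..(m + 1), K u * Fg u) + ε / 4 :=
    up_int hl hU hKc (by linarith) (by linarith) (fun h => by linarith)
      (fun u hu _ => hKn u (by linarith)) (by linarith)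
  have ha : ∀ᶠ T in l, sw (D.x T) (D.R T) α β (fun u => K u - κ) ≤
      (∫ u in α..β, (K u - κ) * Fg u) + ε / 4 :=
    up_int hl hU (hKc.sub continuous_const) hAα hαβ.le (fun h => by linarith)
      (fun u hu1 hu2 => sub_nonneg.2 (hκK u ⟨hu1, hu2⟩)) (by linarith)
  have hc : ∀ᶠ T in l, sw (D.x T) (D.R T) A (m + 1) K ≤
      (∫ u in A..α, K u * Fg u) + ε / 4 + sw (D.x T) (D.R T) α (m + 1) K := by
    rcases hAα.eq_or_lt with h | h
    · refine Eventually.of_forall fun T => ?_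
      rw [h, intervalIntegral.integral_same]
      linarith
    · have h1 := up_int hl hU hKc le_rfl h.le (fun h' => by linarith)
        (fun u hu _ => hKn u hu) (show 0 < ε / 4 by linarith)
      filter_upwards [h1, hl D.hR] with T h1 hR
      have h2 := sw_split (D.x T) hR h.le (show α ≤ (m : ℝ) + 1 by linarith)
        (fun u hu _ => hKn u hu)
      linarith
  filter_upwards [ha, hb, hc, hl D.hR, hl (hNB D)] with T ha hb hc hR hNBT
  have h1 := ks_split (D.x T) hR (show A ≤ (m : ℝ) + 1 by linarith) hKn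
  have h2 := tail (D.x T) hR hB hC.le hK hNBT m hmne
  have h3 := sw_split (D.x T) hR hαβ.le (show β ≤ (m : ℝ) + 1 by linarith)
    (fun u hu _ => hKn u (by linarith))
  have h4 : sw (D.x T) (D.R T) α β K = sw (D.x T) (D.R T) α β (fun u => K u - κ) +
      κ * pc (D.x T) (D.R T) α β := by
    rw [← sw_const, ← sw_add]
    congr 1
    funext u
    ring
  have h5 : (∫ u in α..β, (K u - κ) * Fg u) = (∫ u in α..β, K u * Fg u) -
      κ * ∫ u in α..β, Fg u := by
    rw [← intervalIntegral.integral_const_mul, ← intervalIntegral.integral_sub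
      (gFg_ii hKc α β) ((Fg_ii α β).const_mul κ)]
    congr 1
    funext u
    ring
  have h6 : (∫ u in A..α, K u * Fg u) + (∫ u in α..β, K u * Fg u) +
      (∫ u in β..(m + 1), K u * Fg u) = ∫ u in A..(m + 1), K u * Fg u := by
    rw [intervalIntegral.integral_add_adjacent_intervals (gFg_ii hKc _ _) (gFg_ii hKc _ _),
      intervalIntegral.integral_add_adjacent_intervals (gFg_ii hKc _ _) (gFg_ii hKc _ _)]
  have h7 : (∫ u in A..(m + 1), K u * Fg u) ≤ ∫ u in Set.Ioi A, K u * Fg u := by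
    rw [intervalIntegral.integral_of_le (by linarith)]
    apply setIntegral_mono_set (int_Ioi hKc hK hA)
    · rw [EventuallyLE, ae_restrict_iff' measurableSet_Ioi]
      exact Eventually.of_forall fun u hu =>
        mul_nonneg (hKn u (le_of_lt hu)) (Fg_nonneg u)
    · exact Eventually.of_forall Set.Ioc_subset_Ioi_self
  linarith

end Pool.Agent.H339.OS.UP
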